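import Pool.Agent.Helper96.OP.Defs2

/-!
# MP_2214fc_al : module Q1b (equalities of automorphisms of the free group)
-/

set_option autoImplicit false

open Finset

namespace Pool.Agent.Helper37.OP

open Pool.Agent.Helper96.OP

/-! ### Disjoint transvections -/

section Disj

variable {ι : Type} [DecidableEq ι]

theorem swFun_self_inv (a z : Ltr ι) : swFun a (inv a) z = if z.1 = a.1 then inv z else z := by
  by_cases h : z.1 = a.1
  · rw [if_pos h]
    rcases eq_or_eq_inv h with h1 | h1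
    · subst h1
      simp [swFun]
    · subst h1
      simp [swFun, inv_ne]
  · rw [if_neg h]
    have h1 : z ≠ a := fun e => h (by rw [e])
    have h2 : z ≠ inv a := fun e => h (by rw [e]; rfl)
    simp [swFun, h1, h2]

theorem tvsw_el (x a z : Ltr ι) : (tv x a * autW (sw a (inv a))) (el z) =
    if z.1 = a.1 then el (inv z) else
      el a ^ ((Pi.single x (1 : ℤ) : Ltr ι → ℤ) z) * el z *
        el a ^ (-((Pi.single x (1 : ℤ) : Ltr ι → ℤ) (inv z))) := by
  rw [MulAut.mul_apply, autW_el, sw_app, swFun_self_inv]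
  by_cases h : z.1 = a.1
  · rw [if_pos h, if_pos h, tv, tw_el, if_pos (by simpa using h)]
  · rw [if_neg h, if_neg h, tv, tw_el, if_neg h]

/-- disjoint transvections -/
theorem tv_disj (x y a b : Ltr ι) (hxy : x ≠ y) (h1 : x.1 ≠ a.1) (h2 : x.1 ≠ b.1)
    (h3 : y.1 ≠ a.1) (h4 : y.1 ≠ b.1) (h5 : a.1 ≠ b.1) :
    (tv x a * autW (sw a (inv a))) * (tv y b * autW (sw b (inv b))) =
      (tv y b * autW (sw b (inv b))) * (tv x a * autW (sw a (inv a))) := by
  have hs : ∀ (u v : Ltr ι), v.1 ≠ u.1 → (Pi.single u (1 : ℤ) : Ltr ι → ℤ) v = 0 := by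
    intro u v h
    exact Pi.single_eq_of_ne (fun e => h (by rw [e])) _
  refine aut_ext fun i => ?_
  rw [← el_true]
  generalize hz : ((i, true) : Ltr ι) = z
  show (tv x a * autW (sw a (inv a))) ((tv y b * autW (sw b (inv b))) (el z)) =
    (tv y b * autW (sw b (inv b))) ((tv x a * autW (sw a (inv a))) (el z))
  have hAb : ∀ c : Ltr ι, c.1 = b.1 → (tv x a * autW (sw a (inv a))) (el c) = el c := by
    intro c hc
    rw [tvsw_el, if_neg (by rw [hc]; exact h5.symm), hs x c (by rw [hc]; exact h2.symm),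
      hs x (inv c) (by rw [inv_fst, hc]; exact h2.symm)]
    simp
  have hBa : ∀ c : Ltr ι, c.1 = a.1 → (tv y b * autW (sw b (inv b))) (el c) = el c := by
    intro c hc
    rw [tvsw_el, if_neg (by rw [hc]; exact h5), hs y c (by rw [hc]; exact h3.symm),
      hs y (inv c) (by rw [inv_fst, hc]; exact h3.symm)]
    simp
  by_cases ha : z.1 = a.1
  · rw [hBa z ha, tvsw_el, if_pos ha, hBa (inv z) (by rw [inv_fst, ha])]
  by_cases hb : z.1 = b.1
  · rw [hAb z hb, tvsw_el, if_pos hb, hAb (inv z) (by rw [inv_fst, hb])]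
  rw [tvsw_el y b, if_neg hb, tvsw_el x a, if_neg ha, map_mul, map_mul, map_mul, map_mul, map_zpow,
    map_zpow, map_zpow, map_zpow, hAb b rfl, hBa a rfl, tvsw_el x a, if_neg ha, tvsw_el y b,
    if_neg hb]
  have hx : ∀ c : Ltr ι, (c = x ∧ (Pi.single y (1 : ℤ) : Ltr ι → ℤ) c = 0) ∨
      (Pi.single x (1 : ℤ) : Ltr ι → ℤ) c = 0 := by
    intro c
    by_cases hc : c = x
    · refine Or.inl ⟨hc, ?_⟩
      rw [hc]
      exact Pi.single_eq_of_ne hxy _
    · exact Or.inr (Pi.single_eq_of_ne hc _)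
  rcases hx z with ⟨_, e1⟩ | e1 <;> rcases hx (inv z) with ⟨_, e2⟩ | e2 <;>
    rw [e1, e2] <;> simp [mul_assoc]

end Disj

/-! ### Half turns and reflections -/

section Q1

variable {n : ℕ} [NeZero n]

/-- the exponent in the half turn -/
def cc (k : ℕ) (j : Fin n) : ℤ := if j ≠ 0 ∧ (j : ℕ) ≤ k then 1 else 0

theorem cc_zero (k : ℕ) : cc k (0 : Fin n) = 0 := by simp [cc]

theorem ofNat_add (k l : ℕ) : Fin.ofNat n (k + l) = Fin.ofNat n k + Fin.ofNat n l := by
  apply Fin.ext
  simp [Fin.val_add]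

theorem ofNat_zero' : Fin.ofNat n 0 = 0 := by
  apply Fin.ext
  simp

theorem ofNat_self : Fin.ofNat n n = 0 := by
  apply Fin.ext
  simp

theorem ofNat_val_lt {k : ℕ} (hk : k < n) : (Fin.ofNat n k : ℕ) = k := by
  simp [Nat.mod_eq_of_lt hk]

theorem ap_mm (z : Ltr (Fin n)) : ap mm z = if z.1 = 0 then inv z else z := by
  rw [mm, sw_app, swFun_self_inv]
  rfl

theorem Th_cir (k : ℕ) : (Th k : MulAut (FreeGroup (Fin n))) (el cir) = (el cir)⁻¹ := by
  rw [Th, MulAut.mul_apply, autW_el, ap_mm, if_pos (by rfl), tw_el, if_pos (by rfl), el_inv]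

theorem Th_el (k : ℕ) (j : Fin n) (hj : j ≠ 0) :
    (Th k : MulAut (FreeGroup (Fin n))) (el (j, true)) = el cir ^ cc k j * el (j, true) := by
  rw [Th, MulAut.mul_apply, autW_el, ap_mm, if_neg (by exact hj), tw_el, if_neg (by exact hj)]
  have h1 : (inv ((j, true) : Ltr (Fin n))).2 = false := rfl
  simp only [h1, Bool.false_eq_true, false_and, if_false, neg_zero, zpow_zero, mul_one, true_and]
  rfl

theorem leg_zero : leg (0 : Fin n) = 1 := by simp [leg]

theorem leg_ne (j : Fin n) (hj : j ≠ 0) : leg j = el (j, true) := by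
  rw [leg, if_neg hj]; rfl

theorem Th_leg (k : ℕ) (j : Fin n) :
    (Th k : MulAut (FreeGroup (Fin n))) (leg j) = el cir ^ cc k j * leg j := by
  by_cases hj : j = 0
  · subst hj
    rw [leg_zero, map_one, cc_zero]
    simp
  · rw [leg_ne j hj, Th_el k j hj]

theorem Psi_cir (π : Equiv.Perm (Fin n)) : Psi π (el cir) = el cir := homPsi_zero π

theorem Psi_leg (π : Equiv.Perm (Fin n)) (j : Fin n) :
    Psi π (leg j) = leg (π j) * (leg (π 0))⁻¹ := homPsi_leg π j

theorem ext_leg {α β : MulAut (FreeGroup (Fin n))} (h0 : α (el cir) = β (el cir))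
    (h : ∀ j : Fin n, α (leg j) = β (leg j)) : α = β := by
  refine aut_ext fun i => ?_
  by_cases hi : i = 0
  · subst hi
    exact h0
  · have := h i
    rw [leg, if_neg hi] at this
    exact this

theorem rf_apply (k : ℕ) (j : Fin n) : rf k j = Fin.ofNat n (k + 1) - j := rfl

theorem cc_succ (k : ℕ) (hk : k < n) : cc k (Fin.ofNat n (k + 1)) = 0 := by
  unfold cc
  rw [if_neg]
  rintro ⟨h1, h2⟩
  rcases Nat.lt_or_ge (k + 1) n with h3 | h3
  · rw [ofNat_val_lt h3] at h2
    omega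
  · have h4 : k + 1 = n := by omega
    rw [h4, ofNat_self] at h1
    exact h1 rfl

theorem Fl_cir (k : ℕ) : (Fl k : MulAut (FreeGroup (Fin n))) (el cir) = (el cir)⁻¹ := by
  rw [Fl, MulAut.mul_apply, Psi_cir, Th_cir]

theorem Fl_leg (k : ℕ) (hk : k < n) (j : Fin n) :
    (Fl k : MulAut (FreeGroup (Fin n))) (leg j) =
      el cir ^ cc k (Fin.ofNat n (k + 1) - j) * leg (Fin.ofNat n (k + 1) - j) *
        (leg (Fin.ofNat n (k + 1)))⁻¹ := by
  rw [Fl, MulAut.mul_apply, Psi_leg, map_mul, map_inv, Th_leg, Th_leg, rf_apply, rf_apply,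
    sub_zero, cc_succ k hk, zpow_zero, one_mul]

/-- the number of wraps -/
def NN (k : ℕ) (j : Fin n) : ℤ := ∑ i ∈ range k, if j + Fin.ofNat n i = 0 then 1 else 0

theorem NN_succ (k : ℕ) (j : Fin n) :
    NN (k + 1) j = NN k j + if j + Fin.ofNat n k = 0 then 1 else 0 := by
  unfold NN
  rw [sum_range_succ]

theorem NN_zero (j : Fin n) : NN 0 j = 0 := by simp [NN]

theorem NN_self (j : Fin n) : NN n j = 1 := by
  unfold NN
  rw [sum_range]
  have h : ∀ i : Fin n, (if j + Fin.ofNat n (i : ℕ) = 0 then (1 : ℤ) else 0) =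
      if i = -j then 1 else 0 := by
    intro i
    have h1 : Fin.ofNat n (i : ℕ) = i := by
      apply Fin.ext
      exact ofNat_val_lt i.2
    rw [h1]
    congr 1
    rw [eq_iff_iff, add_comm, add_eq_zero_iff_eq_neg]
  simp only [h, sum_ite_eq', mem_univ, if_true]

theorem NN_sub (k : ℕ) (hk : k < n) (j : Fin n) : NN k (Fin.ofNat n 1 - j) = cc k j := by
  unfold NN
  have h : ∀ i ∈ range k, (if Fin.ofNat n 1 - j + Fin.ofNat n i = 0 then (1 : ℤ) else 0) =
      if i + 1 = (j : ℕ) then 1 else 0 := by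
    intro i hi
    rw [mem_range] at hi
    congr 1
    rw [eq_iff_iff, sub_add_eq_add_sub, sub_eq_zero, ← ofNat_add]
    constructor
    · intro h1
      rw [← h1, ofNat_val_lt (by omega)]
      omega
    · intro h1
      apply Fin.ext
      rw [ofNat_val_lt (by omega)]
      omega
  rw [sum_congr rfl h]
  unfold cc
  by_cases hj : j ≠ 0 ∧ (j : ℕ) ≤ k
  · rw [if_pos hj]
    have hj0 : (j : ℕ) ≠ 0 := fun e => hj.1 (Fin.ext e)
    rw [sum_eq_single ((j : ℕ) - 1)]
    · rw [if_pos (by omega)]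
    · intro i _ hi
      rw [if_neg (by omega)]
    · intro h1
      exfalso
      apply h1
      rw [mem_range]
      omega
  · rw [if_neg hj]
    refine sum_eq_zero fun i hi => ?_
    rw [mem_range] at hi
    rw [if_neg]
    intro h1
    refine hj ⟨?_, by omega⟩
    intro e
    rw [e] at h1
    simp at h1

theorem cc_one (hn : 1 < n) (j : Fin n) :
    cc 1 (j + Fin.ofNat n 1) = if j = 0 then (1 : ℤ) else 0 := by
  have hv1 : ((Fin.ofNat n 1 : Fin n) : ℕ) = 1 := ofNat_val_lt hn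
  unfold cc
  by_cases hj : j = 0
  · rw [if_pos hj, if_pos]
    rw [hj, zero_add]
    refine ⟨?_, hv1.le⟩
    intro e
    rw [e] at hv1
    simp at hv1
  · rw [if_neg hj, if_neg]
    rintro ⟨h1, h2⟩
    apply hj
    have h3 : ((j + Fin.ofNat n 1 : Fin n) : ℕ) ≠ 0 := fun e => h1 (Fin.ext e)
    have h4 : j + Fin.ofNat n 1 = Fin.ofNat n 1 := by
      apply Fin.ext
      rw [hv1]
      exact le_antisymm h2 (Nat.one_le_iff_ne_zero.mpr h3)
    simpa using h4

theorem RR_cir : (Fl 1 * Fl 0 : MulAut (FreeGroup (Fin n))) (el cir) = el cir := by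
  rw [MulAut.mul_apply, Fl_cir, map_inv, Fl_cir, _root_.inv_inv]

theorem RR_leg (j : Fin n) : (Fl 1 * Fl 0 : MulAut (FreeGroup (Fin n))) (leg j) =
    el cir ^ (if j = 0 then (1 : ℤ) else 0) * leg (j + Fin.ofNat n 1) * (leg (Fin.ofNat n 1))⁻¹ *
      (el cir)⁻¹ := by
  rcases Nat.lt_or_ge 1 n with hn | hn
  · rw [MulAut.mul_apply, Fl_leg 0 (by omega), map_mul, map_mul, map_inv, map_zpow, Fl_cir,
      Fl_leg 1 hn, Fl_leg 1 hn]
    have e1 : cc 0 (Fin.ofNat n (0 + 1) - j) = 0 := by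
      unfold cc
      rw [if_neg]
      rintro ⟨h1, h2⟩
      exact h1 (Fin.ext (by simpa using h2))
    have e2 : Fin.ofNat n (1 + 1) - (Fin.ofNat n (0 + 1) - j) = j + Fin.ofNat n 1 := by
      rw [ofNat_add, zero_add]
      abel
    have e3 : Fin.ofNat n (1 + 1) - Fin.ofNat n (0 + 1) = Fin.ofNat n 1 := by
      rw [ofNat_add, zero_add]
      abel
    have e4 := cc_one hn j
    have e5 : cc 1 (Fin.ofNat n 1 : Fin n) = 1 := by
      have h := cc_one hn 0
      rwa [zero_add, if_pos rfl] at h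
    rw [e1, e2, e3, e4, e5]
    simp [mul_assoc]
  · have h1 : ∀ i : Fin n, leg i = 1 := by
      intro i
      have : i = 0 := Fin.ext (by have := i.2; simp; omega)
      rw [this, leg_zero]
    have h2 : j = 0 := Fin.ext (by have := j.2; simp; omega)
    rw [h1, h1, h1, map_one, if_pos h2]
    simp

theorem RR_pow_cir (k : ℕ) :
    ((Fl 1 * Fl 0) ^ k : MulAut (FreeGroup (Fin n))) (el cir) = el cir := by
  induction k with
  | zero => rfl
  | succ k ih => rw [pow_succ, MulAut.mul_apply, RR_cir, ih]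

theorem RR_pow_leg (k : ℕ) (j : Fin n) :
    ((Fl 1 * Fl 0) ^ k : MulAut (FreeGroup (Fin n))) (leg j) =
      el cir ^ NN k j * leg (j + Fin.ofNat n k) * (leg (Fin.ofNat n k))⁻¹ *
        el cir ^ (-NN k (0 : Fin n)) := by
  induction k with
  | zero =>
    rw [NN_zero, NN_zero, ofNat_zero', add_zero, leg_zero]
    simp
  | succ k ih =>
    rw [pow_succ', MulAut.mul_apply, ih, map_mul, map_mul, map_mul, map_inv, map_zpow, map_zpow,
      RR_cir, RR_leg, RR_leg, NN_succ, NN_succ, ofNat_add, add_assoc, zero_add, zpow_add,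
      neg_add, zpow_add]
    have e : (if Fin.ofNat n k = (0 : Fin n) then (1 : ℤ) else 0) =
      if (Fin.ofNat n k : Fin n) = 0 then (1 : ℤ) else 0 := rfl
    group

theorem Fl_pow : ((Fl 1 * Fl 0) ^ n : MulAut (FreeGroup (Fin n))) = MulAut.conj (el cir) := by
  refine ext_leg ?_ fun j => ?_
  · rw [RR_pow_cir, MulAut.conj_apply]
    simp
  · rw [RR_pow_leg, NN_self, NN_self, ofNat_self, add_zero, leg_zero, MulAut.conj_apply]
    simp

theorem ofNat_val (j : Fin n) : Fin.ofNat n (j : ℕ) = j := Fin.ext (ofNat_val_lt j.2)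

theorem refl_range (k : ℕ) (hk : k < n) (j : Fin n) (h : j ≠ 0 ∧ (j : ℕ) ≤ k) :
    Fin.ofNat n (k + 1) - j ≠ 0 ∧ ((Fin.ofNat n (k + 1) - j : Fin n) : ℕ) ≤ k := by
  have hj0 : (j : ℕ) ≠ 0 := fun e => h.1 (Fin.ext e)
  have h1 : Fin.ofNat n (k + 1) - j = Fin.ofNat n (k + 1 - (j : ℕ)) := by
    rw [sub_eq_iff_eq_add]
    calc Fin.ofNat n (k + 1) = Fin.ofNat n ((k + 1 - (j : ℕ)) + (j : ℕ)) := by
          congr 1; omega
      _ = Fin.ofNat n (k + 1 - (j : ℕ)) + Fin.ofNat n (j : ℕ) := ofNat_add _ _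
      _ = Fin.ofNat n (k + 1 - (j : ℕ)) + j := by rw [ofNat_val]
  have h2 : ((Fin.ofNat n (k + 1 - (j : ℕ)) : Fin n) : ℕ) = k + 1 - (j : ℕ) :=
    ofNat_val_lt (by omega)
  rw [h1]
  constructor
  · intro e
    rw [e] at h2
    have h3 : ((0 : Fin n) : ℕ) = 0 := rfl
    omega
  · omega

theorem Fl_eq (k : ℕ) (hk : k < n) :
    (Fl k : MulAut (FreeGroup (Fin n))) = (Fl 1 * Fl 0) ^ k * Fl 0 := by
  refine ext_leg ?_ fun j => ?_
  · rw [MulAut.mul_apply, Fl_cir, Fl_cir, map_inv, RR_pow_cir]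
  · have e1 : cc 0 (Fin.ofNat n (0 + 1) - j) = 0 := by
      unfold cc
      rw [if_neg]
      rintro ⟨h1, h2⟩
      exact h1 (Fin.ext (by simpa using h2))
    have e2 : cc k (Fin.ofNat n (k + 1) - j) = cc k j := by
      unfold cc
      congr 1
      rw [eq_iff_iff]
      constructor
      · intro h
        have := refl_range k hk _ h
        rwa [sub_sub_cancel] at this
      · exact refl_range k hk j
    have e3 : NN k (Fin.ofNat n 1 : Fin n) = 0 := by
      have := NN_sub k hk (0 : Fin n)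
      rwa [sub_zero, cc_zero] at this
    rw [MulAut.mul_apply, Fl_leg k hk, Fl_leg 0 (by omega), map_mul, map_mul, map_inv, map_zpow,
      RR_pow_cir, RR_pow_leg, RR_pow_leg, e1, e2, zero_add, NN_sub k hk, e3]
    have e4 : Fin.ofNat n 1 - j + Fin.ofNat n k = Fin.ofNat n (k + 1) - j := by
      rw [ofNat_add]; abel
    have e5 : Fin.ofNat n 1 + Fin.ofNat n k = Fin.ofNat n (k + 1) := by
      rw [ofNat_add]; abel
    rw [e4, e5]
    group

/-! ### Elements of order three -/

theorem cube (k : ℕ) (hk : 1 ≤ k) (hn : 2 ≤ n) :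
    ((Th k * autW (sw (Fin.ofNat n 1, true) (inv cir))) ^ 3 : MulAut (FreeGroup (Fin n))) = 1 := by
  have hv1 : ((Fin.ofNat n 1 : Fin n) : ℕ) = 1 := ofNat_val_lt hn
  have h10 : (Fin.ofNat n 1 : Fin n) ≠ 0 := by
    intro e
    rw [e] at hv1
    have h3 : ((0 : Fin n) : ℕ) = 0 := rfl
    omega
  set x1 : Ltr (Fin n) := (Fin.ofNat n 1, true) with hx1
  set α : MulAut (FreeGroup (Fin n)) := Th k * autW (sw x1 (inv cir)) with hα
  have hsw : ∀ z : Ltr (Fin n), ap (sw x1 (inv cir)) z = swFun x1 (inv cir) z := fun z => rfl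
  have e1 : α (el x1) = el cir := by
    rw [hα, MulAut.mul_apply, autW_el, hsw]
    have : swFun x1 (inv cir) x1 = inv cir := by simp [swFun]
    rw [this, el_inv, map_inv, Th_cir, _root_.inv_inv]
  have e2 : α (el cir) = (el cir * el x1)⁻¹ := by
    rw [hα, MulAut.mul_apply, autW_el, hsw]
    have h1 : cir ≠ x1 := fun e => h10 (congrArg Prod.fst e).symm
    have h2 : cir ≠ inv x1 := fun e => h10 (congrArg Prod.fst e).symm
    have h3 : swFun x1 (inv cir) cir = inv x1 := by simp [swFun, h1, h2, ne_inv]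
    rw [h3, el_inv, map_inv, hx1, Th_el k _ h10]
    have h4 : cc k (Fin.ofNat n 1 : Fin n) = 1 := by
      unfold cc
      rw [if_pos]
      exact ⟨h10, by rw [hv1]; exact hk⟩
    rw [h4, zpow_one]
  have e3 : ∀ j : Fin n, j ≠ 0 → j ≠ Fin.ofNat n 1 →
      α (el (j, true)) = el cir ^ cc k j * el (j, true) := by
    intro j hj hj1
    rw [hα, MulAut.mul_apply, autW_el, hsw]
    have h1 : ((j, true) : Ltr (Fin n)) ≠ x1 := fun e => hj1 (congrArg Prod.fst e)
    have h2 : ((j, true) : Ltr (Fin n)) ≠ inv x1 := fun e => hj1 (congrArg Prod.fst e)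
    have h3 : ((j, true) : Ltr (Fin n)) ≠ cir := fun e => hj (congrArg Prod.fst e)
    have h4 : ((j, true) : Ltr (Fin n)) ≠ inv cir := fun e => hj (congrArg Prod.fst e)
    have h5 : swFun x1 (inv cir) (j, true) = (j, true) := by simp [swFun, h1, h2, h3, h4]
    rw [h5, Th_el k j hj]
  have hcube : ∀ g, (α ^ 3) g = α (α (α g)) := fun g => rfl
  refine aut_ext fun i => ?_
  rw [← el_true, hcube, MulAut.one_apply]
  by_cases hi : i = 0
  · have h1 : ((i, true) : Ltr (Fin n)) = cir := by rw [hi]; rfl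
    rw [h1, e2, map_inv, map_mul, e1, e2]
    simp [e1]
  by_cases hi1 : i = Fin.ofNat n 1
  · have h1 : ((i, true) : Ltr (Fin n)) = x1 := by rw [hi1]
    rw [h1, e1, e2, map_inv, map_mul, e1, e2]
    simp
  · rw [e3 i hi hi1, map_mul, map_zpow, e2, e3 i hi hi1, map_mul, map_mul, map_zpow, map_zpow,
      map_inv, map_mul, e1, e2, e3 i hi hi1]
    have hc : cc k i = 0 ∨ cc k i = 1 := by
      unfold cc
      split_ifs
      · exact Or.inr rfl
      · exact Or.inl rfl
    rcases hc with hc | hc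
    · rw [hc]; simp
    · rw [hc]; simp

/-- `θ_1` has a product of order three with `x_1 ↔ a⁻¹` -/
theorem Th_one_cube (hn : 2 ≤ n) :
    ((Th 1 * autW (sw (Fin.ofNat n 1, true) (inv cir))) ^ 3 : MulAut (FreeGroup (Fin n))) = 1 :=
  cube 1 le_rfl hn

theorem Th_two_cube (hn : 3 ≤ n) :
    ((Th 2 * autW (sw (Fin.ofNat n 1, true) (inv cir))) ^ 3 : MulAut (FreeGroup (Fin n))) = 1 :=
  cube 2 (by norm_num) (by omega)

/-! ### The last leg -/

/-- exchange of the circle and the last letter, inversion of all other letters -/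
def lw (l : Fin n) (z : Ltr (Fin n)) : Ltr (Fin n) :=
  if z.1 = 0 then (l, z.2) else if z.1 = l then (0, z.2) else inv z

theorem lw_involutive (l : Fin n) (hl : l ≠ 0) : Function.Involutive (lw l) := by
  rintro ⟨i, b⟩
  by_cases h1 : i = 0
  · subst h1
    simp [lw, hl]
  by_cases h2 : i = l
  · subst h2
    simp [lw, hl]
  · simp [lw, h1, h2, inv]

theorem lw_inv (l : Fin n) (z : Ltr (Fin n)) : lw l (inv z) = inv (lw l z) := by
  obtain ⟨i, b⟩ := z
  by_cases h1 : i = 0
  · subst h1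
    simp [lw, inv]
  by_cases h2 : i = l
  · subst h2
    simp [lw, h1, inv]
  · simp [lw, h1, h2, inv]

/-- the signed permutation exchanging `a` and `x_{n-1}` and inverting the other generators -/
theorem exists_last (hn : 3 ≤ n) : ∃ w : W (Fin n), w * w = 1 ∧
    ap w cir = (Fin.ofNat n (n - 1), true) ∧
    (∀ j : Fin n, j ≠ 0 → (j : ℕ) < n - 1 → ap w (j, true) = (j, false)) ∧
    autW w * Th (n - 2) * autW w = Psi (Equiv.swap 0 (Fin.ofNat n (n - 1))) ∧
    Th (n - 2) * Psi (Equiv.swap 0 (Fin.ofNat n (n - 1))) =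
      Psi (Equiv.swap 0 (Fin.ofNat n (n - 1))) * Th (n - 2) := by
  have hvl : ((Fin.ofNat n (n - 1) : Fin n) : ℕ) = n - 1 := ofNat_val_lt (by omega)
  have hl0 : (Fin.ofNat n (n - 1) : Fin n) ≠ 0 := by
    intro e
    rw [e] at hvl
    have h3 : ((0 : Fin n) : ℕ) = 0 := rfl
    omega
  generalize hl : (Fin.ofNat n (n - 1) : Fin n) = l at hvl hl0 ⊢
  set w : W (Fin n) := ⟨(lw_involutive l hl0).toPerm, lw_inv l⟩ with hw
  have hap : ∀ z, ap w z = lw l z := fun z => rfl
  have a1 : ap w cir = (l, true) := by rw [hap]; simp [lw, cir]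
  have a2 : ap w (l, true) = cir := by rw [hap]; simp [lw, cir, hl0]
  have a3 : ∀ j : Fin n, j ≠ 0 → j ≠ l → ap w (j, true) = (j, false) := by
    intro j h1 h2
    rw [hap]; simp [lw, h1, h2, inv]
  have c1 : cc (n - 2) l = 0 := by
    unfold cc
    rw [if_neg]
    rintro ⟨_, h⟩
    omega
  have c2 : ∀ j : Fin n, j ≠ 0 → j ≠ l → cc (n - 2) j = 1 := by
    intro j h1 h2
    unfold cc
    rw [if_pos]
    refine ⟨h1, ?_⟩
    have h3 : (j : ℕ) ≠ n - 1 := by
      intro e
      exact h2 (Fin.ext (e.trans hvl.symm))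
    have := j.2
    omega
  have p0 : (Equiv.swap 0 l) 0 = l := Equiv.swap_apply_left _ _
  have pl : (Equiv.swap 0 l) l = 0 := Equiv.swap_apply_right _ _
  have pj : ∀ j : Fin n, j ≠ 0 → j ≠ l → (Equiv.swap 0 l) j = j := fun j h1 h2 =>
    Equiv.swap_apply_of_ne_of_ne h1 h2
  have hlj : ∀ j : Fin n, j ≠ 0 → leg j = el (j, true) := leg_ne
  refine ⟨w, W_ext fun z => lw_involutive l hl0 z, a1, ?_, ?_, ?_⟩
  · intro j h1 h2
    refine a3 j h1 ?_
    intro e
    rw [e] at h2
    omega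
  · have hcomp : ∀ g, (autW w * Th (n - 2) * autW w : MulAut (FreeGroup (Fin n))) g =
        autW w (Th (n - 2) (autW w g)) := fun g => rfl
    refine ext_leg ?_ fun j => ?_
    · rw [hcomp, Psi_cir, autW_el, a1, Th_el _ l hl0, c1, zpow_zero, one_mul, autW_el, a2]
    · rw [hcomp, Psi_leg, p0]
      by_cases h1 : j = 0
      · subst h1
        rw [p0, leg_zero]
        simp
      by_cases h2 : j = l
      · subst h2
        rw [pl, leg_zero, hlj _ h1, autW_el, a2, Th_cir, map_inv, autW_el, a1, one_mul]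
      · rw [pj j h1 h2, hlj j h1, hlj l hl0, autW_el, a3 j h1 h2]
        have e1 : ((j, false) : Ltr (Fin n)) = inv (j, true) := rfl
        rw [e1, el_inv, map_inv, map_inv, Th_el _ j h1, c2 j h1 h2, zpow_one, map_mul, autW_el,
          autW_el, a1, a3 j h1 h2, e1, el_inv]
        simp
  · have hcomp : ∀ (α β : MulAut (FreeGroup (Fin n))) g, (α * β) g = α (β g) :=
      fun α β g => rfl
    refine ext_leg ?_ fun j => ?_
    · rw [hcomp, hcomp, Psi_cir, Th_cir, map_inv, Psi_cir]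
    · rw [hcomp, hcomp, Psi_leg, p0, Th_leg, map_mul, map_mul, map_inv, map_zpow, Psi_cir,
        Psi_leg, p0, Th_leg, Th_leg, c1]
      by_cases h1 : j = 0
      · subst h1
        rw [p0, c1, cc_zero]
        simp
      by_cases h2 : j = l
      · subst h2
        rw [pl, cc_zero, c1]
        simp
      · rw [pj j h1 h2, c2 j h1 h2]
        simp [mul_assoc]

end Q1

end Pool.Agent.Helper37.OP
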